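import Pool.Agent.H80.PK.GStmts

/-! Row OPA of the board `pkt` (helper1). -/

set_option autoImplicit false

namespace Pool.PK

open MeasureTheory Filter Topology UniformSpace
open scoped Pointwise ENNReal

theorem OPA (h1 : LSNStmt) (h2 : YNGStmt) : OPAStmt := by
  intro G _ _ _ _ _ _ _ μ _ p hp
  obtain ⟨⟨hn, hadd, hsm⟩, -⟩ := h1 G μ p hp
  have hn1 : ∀ f : CG μ, 0 ≤ lpn μ 1 f := fun f => ENNReal.toReal_nonneg
  have hy := h2 G μ p hp
  have hne : ∀ f : CG μ, lpn μ 1 f ∈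
      {c : ℝ | 0 ≤ c ∧ ∀ g : CG μ, lpn μ p (f * g) ≤ c * lpn μ p g} :=
    fun f => ⟨hn1 f, fun g => hy f g⟩
  have hbdd : ∀ f : CG μ, BddBelow
      {c : ℝ | 0 ≤ c ∧ ∀ g : CG μ, lpn μ p (f * g) ≤ c * lpn μ p g} :=
    fun f => ⟨0, fun c hc => hc.1⟩
  have hle : ∀ (f : CG μ) (c : ℝ), 0 ≤ c → (∀ g : CG μ, lpn μ p (f * g) ≤ c * lpn μ p g) →
      opn μ p f ≤ c := fun f c h3 h4 => csInf_le (hbdd f) ⟨h3, h4⟩
  have hnn : ∀ f : CG μ, 0 ≤ opn μ p f := fun f => le_csInf ⟨_, hne f⟩ fun c hc => hc.1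
  have hop : ∀ f g : CG μ, lpn μ p (f * g) ≤ opn μ p f * lpn μ p g := by
    intro f g
    rcases (hn g).eq_or_lt with h0 | h0
    · have := (hne f).2 g
      rw [← h0, mul_zero] at this ⊢
      exact this
    · rw [← div_le_iff₀ h0]
      refine le_csInf ⟨_, hne f⟩ fun c hc => ?_
      rw [div_le_iff₀ h0]
      exact hc.2 g
  have hsmle : ∀ (c : ℂ) (f : CG μ), opn μ p (c • f) ≤ ‖c‖ * opn μ p f := by
    intro c f
    refine hle _ _ (mul_nonneg (norm_nonneg c) (hnn f)) fun g => ?_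
    rw [smul_mul_assoc, hsm, mul_assoc]
    exact mul_le_mul_of_nonneg_left (hop f g) (norm_nonneg c)
  refine ⟨⟨hnn, fun f g => ?_, fun c f => ?_⟩, fun f g => ?_, hop, fun f => ?_⟩
  · refine hle _ _ (add_nonneg (hnn f) (hnn g)) fun h => ?_
    rw [add_mul, add_mul]
    exact (hadd _ _).trans (add_le_add (hop f h) (hop g h))
  · refine le_antisymm (hsmle c f) ?_
    rcases eq_or_ne c 0 with rfl | hc
    · rw [norm_zero, zero_mul]; exact hnn _
    · have h3 := hsmle c⁻¹ (c • f)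
      rw [smul_smul, inv_mul_cancel₀ hc, one_smul, norm_inv] at h3
      have h4 : 0 < ‖c‖ := norm_pos_iff.2 hc
      calc ‖c‖ * opn μ p f ≤ ‖c‖ * (‖c‖⁻¹ * opn μ p (c • f)) :=
            mul_le_mul_of_nonneg_left h3 h4.le
        _ = opn μ p (c • f) := by rw [← mul_assoc, mul_inv_cancel₀ h4.ne', one_mul]
  · refine hle _ _ (mul_nonneg (hnn f) (hnn g)) fun h => ?_
    rw [mul_assoc f g h, mul_assoc]
    exact (hop f (g * h)).trans (mul_le_mul_of_nonneg_left (hop g h) (hnn f))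
  · exact hle _ _ (hne f).1 (hne f).2

end Pool.PK
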